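import Pool.Agent.Helper71.PY.Goals

set_option autoImplicit false

namespace Pool.Agent.Helper75.PY

open Pool.Agent.Helper71.PY

/-- The reflection in a vector whose norm is a unit. -/
theorem refl {R V : Type} [CommRing R] [AddCommGroup V] [Module R V]
    (B : V →ₗ[R] V →ₗ[R] R) (hs : ∀ v w, B v w = B w v) (c : V) (q : R)
    (hq : B c c * q = 1) :
    ∃ t : V ≃ₗ[R] V, (∀ v w, B (t v) (t w) = B v w) ∧
      ∀ v, t v = v - (2 * B v c * q) • c := by
  let f : V →ₗ[R] V := LinearMap.id - (2 * q) • (LinearMap.smulRight (B.flip c) c)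
  have hf : ∀ v, f v = v - (2 * B v c * q) • c := by
    intro v
    simp only [f, LinearMap.sub_apply, LinearMap.id_apply, LinearMap.smul_apply,
      LinearMap.smulRight_apply, LinearMap.flip_apply, smul_smul]
    congr 2
    ring
  have hff : Function.Involutive f := by
    intro v
    have h1 : B (f v) c = - B v c := by
      rw [hf, map_sub, map_smul, LinearMap.sub_apply, LinearMap.smul_apply, smul_eq_mul]
      linear_combination (-2 * B v c) * hq
    rw [hf (f v), h1, hf v]
    rw [sub_sub, ← add_smul]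
    have : 2 * B v c * q + 2 * -B v c * q = 0 := by ring
    rw [this, zero_smul, sub_zero]
  refine ⟨LinearEquiv.ofInvolutive f hff, ?_, ?_⟩
  · intro v w
    have e1 : (LinearEquiv.ofInvolutive f hff) v = f v := rfl
    have e2 : (LinearEquiv.ofInvolutive f hff) w = f w := rfl
    rw [e1, e2, hf, hf]
    simp only [map_sub, map_smul, LinearMap.sub_apply, LinearMap.smul_apply, smul_eq_mul]
    rw [hs c w]
    linear_combination (4 * B v c * B w c * q) * hq
  · intro v
    have e1 : (LinearEquiv.ofInvolutive f hff) v = f v := rfl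
    rw [e1, hf]

/-- Two vectors of the same unit norm are conjugate. -/
theorem conj {R V : Type} [CommRing R] [IsLocalRing R] [AddCommGroup V] [Module R V]
    (h2 : IsUnit (2 : R)) (B : V →ₗ[R] V →ₗ[R] R) (hs : ∀ v w, B v w = B w v) (a b : V)
    (u : R) (hu : IsUnit u) (ha : B a a = u) (hb : B b b = u) :
    ∃ t : V ≃ₗ[R] V, (∀ v w, B (t v) (t w) = B v w) ∧ t a = b := by
  have hsum : B (a - b) (a - b) + B (a + b) (a + b) = 2 * (2 * u) := by
    simp only [map_sub, map_add, LinearMap.sub_apply, LinearMap.add_apply]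
    rw [ha, hb]
    ring
  have hun : IsUnit (B (a - b) (a - b) + B (a + b) (a + b)) := by
    rw [hsum]
    exact h2.mul (h2.mul hu)
  rcases IsLocalRing.isUnit_or_isUnit_of_isUnit_add hun with h | h
  · obtain ⟨q, hq⟩ := h.exists_right_inv
    obtain ⟨t, ht1, ht2⟩ := refl B hs (a - b) q hq
    refine ⟨t, ht1, ?_⟩
    have e : 2 * B a (a - b) = B (a - b) (a - b) := by
      simp only [map_sub, LinearMap.sub_apply]
      rw [ha, hb, hs b a]
      ring
    rw [ht2, e, hq, one_smul]
    abel
  · obtain ⟨q, hq⟩ := h.exists_right_inv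
    obtain ⟨t, ht1, ht2⟩ := refl B hs (a + b) q hq
    refine ⟨t.trans (LinearEquiv.neg R), ?_, ?_⟩
    · intro v w
      simp only [LinearEquiv.trans_apply, LinearEquiv.neg_apply, map_neg, LinearMap.neg_apply,
        neg_neg]
      exact ht1 v w
    · have e : 2 * B a (a + b) = B (a + b) (a + b) := by
        simp only [map_add, LinearMap.add_apply]
        rw [ha, hb, hs b a]
        ring
      rw [LinearEquiv.trans_apply, LinearEquiv.neg_apply, ht2, e, hq, one_smul]
      abel

theorem c1 : G_C1 := by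
  intro R _ _ h2 u hu N1 N2 _ _ _ _ B1 B2 hs1 hs2 hiso
  obtain ⟨φ, hφ⟩ := hiso
  set B' := os (rk1 u) B2 with hB'
  have hs' : ∀ v w, B' v w = B' w v := by
    intro v w
    simp only [hB', os_apply, rk1_apply]
    rw [hs2 v.2 w.2]
    ring
  have ha : B' (φ (1, 0)) (φ (1, 0)) = u := by
    rw [hφ]
    simp
  have hb : B' (1, 0) (1, 0) = u := by
    simp [hB']
  obtain ⟨ψ, hψ, hψa⟩ := conj h2 B' hs' (φ (1, 0)) (1, 0) u hu ha hb
  let θ : (R × N1) ≃ₗ[R] (R × N2) := φ.trans ψ
  have hθ1 : θ (1, 0) = (1, 0) := by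
    simp only [θ, LinearEquiv.trans_apply]
    exact hψa
  have hθ : ∀ v w, B' (θ v) (θ w) = os (rk1 u) B1 v w := by
    intro v w
    simp only [θ, LinearEquiv.trans_apply]
    rw [hψ, hφ]
  have hθ1' : θ.symm (1, 0) = (1, 0) := by
    rw [← hθ1, LinearEquiv.symm_apply_apply]
  have hz : ∀ n : N1, (θ (0, n)).1 = 0 := by
    intro n
    have h := hθ (1, 0) (0, n)
    rw [hθ1] at h
    simp only [hB', os_apply, rk1_apply, map_zero, LinearMap.zero_apply, mul_one, mul_zero,
      add_zero] at h
    exact (hu.mul_right_eq_zero).1 h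
  have hz' : ∀ n : N2, (θ.symm (0, n)).1 = 0 := by
    intro n
    have h := hθ (1, 0) (θ.symm (0, n))
    rw [hθ1, LinearEquiv.apply_symm_apply] at h
    simp only [hB', os_apply, rk1_apply, map_zero, LinearMap.zero_apply, mul_one, mul_zero,
      add_zero] at h
    exact (hu.mul_right_eq_zero).1 h.symm
  have hp : ∀ n : N1, θ (0, n) = (0, (θ (0, n)).2) := fun n => Prod.ext (hz n) rfl
  have hp' : ∀ n : N2, θ.symm (0, n) = (0, (θ.symm (0, n)).2) := fun n => Prod.ext (hz' n) rfl
  let e : N1 ≃ₗ[R] N2 := LinearEquiv.ofLinearMap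
    ((LinearMap.snd R R N2) ∘ₗ (θ : (R × N1) →ₗ[R] (R × N2)) ∘ₗ (LinearMap.inr R R N1))
    ((LinearMap.snd R R N1) ∘ₗ (θ.symm : (R × N2) →ₗ[R] (R × N1)) ∘ₗ (LinearMap.inr R R N2))
    (by
      ext n
      simp only [LinearMap.comp_apply, LinearMap.snd_apply, LinearMap.inr_apply,
        LinearEquiv.coe_coe, LinearMap.id_apply]
      rw [← hp', LinearEquiv.apply_symm_apply])
    (by
      ext n
      simp only [LinearMap.comp_apply, LinearMap.snd_apply, LinearMap.inr_apply,
        LinearEquiv.coe_coe, LinearMap.id_apply]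
      rw [← hp, LinearEquiv.symm_apply_apply])
  refine ⟨e, ?_⟩
  intro v w
  have he : ∀ n, e n = (θ (0, n)).2 := fun n => rfl
  have h := hθ (0, v) (0, w)
  rw [hp v, hp w] at h
  simp only [hB', os_apply, rk1_apply, mul_zero, zero_add] at h
  rw [he, he]
  exact h

end Pool.Agent.Helper75.PY
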